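import Mathlib
import Pool.Agent.MP_9e0a8c_lc.Lift

/-!
The RD+PCD mechanism on the circle of length one has approximation ratio below three halves
on every profile with an odd number of agents.
-/

set_option autoImplicit false

namespace Pool.Agent.Results.MP_9e0a8c_lc.RDPCD

open Finset

/-- Social cost of a lottery `l` (a finitely supported weight function on the circle):
the sum over the agents of the expected distance to the facility. -/
noncomputable def socialCost {N : Type} [Fintype N] (b : N → UnitAddCircle)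
    (l : UnitAddCircle →₀ ℝ) : ℝ :=
  ∑ i, l.sum fun x p => p * dist (b i) x

/-- The optimal social cost over all points of the circle. -/
noncomputable def optCost {N : Type} [Fintype N] (b : N → UnitAddCircle) : ℝ :=
  ⨅ v : UnitAddCircle, ∑ i, dist (b i) v

/-- Random dictator: the report of each agent gets weight `1 / n`. -/
noncomputable def rd {N : Type} [Fintype N] (b : N → UnitAddCircle) : UnitAddCircle →₀ ℝ :=
  ∑ i, Finsupp.single (b i) (1 / (Fintype.card N : ℝ))

/-- `a` lists the agents in clockwise order: their reports lift to reals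
`x 0 ≤ x 1 ≤ ... ≤ x (n-1) ≤ x 0 + 1`. -/
def IsClockwise {N : Type} {n : ℕ} (b : N → UnitAddCircle) (a : Fin n ≃ N) : Prop :=
  ∃ x : Fin n → ℝ, Monotone x ∧ (∀ i j, x j ≤ x i + 1) ∧ ∀ j, (x j : UnitAddCircle) = b (a j)

/-- Length of the clockwise arc from `u` to `v`: the representative of `v - u` in `[0, 1)`. -/
noncomputable def arcLength (u v : UnitAddCircle) : ℝ :=
  (AddCircle.equivIco 1 0 (v - u) : ℝ)

/-- Length of the arc opposing the `j`-th listed agent: from `a (j + k)` to `a (j - k)`,
indices modulo `n = 2k + 1`. -/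
noncomputable def oppArc {N : Type} (k : ℕ) (b : N → UnitAddCircle) (a : Fin (2 * k + 1) ≃ N)
    (j : Fin (2 * k + 1)) : ℝ :=
  arcLength (b (a (j + Fin.ofNat (2 * k + 1) k))) (b (a (j - Fin.ofNat (2 * k + 1) k)))

/-- Proportional circle distance: the report of the `j`-th listed agent gets weight
proportional to the length of its opposing arc. -/
noncomputable def pcd {N : Type} (k : ℕ) (b : N → UnitAddCircle) (a : Fin (2 * k + 1) ≃ N) :
    UnitAddCircle →₀ ℝ :=
  ∑ j, Finsupp.single (b (a j)) (oppArc k b a j / ∑ i, oppArc k b a i)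

/-- RD with probability one half, PCD with probability one half. -/
noncomputable def rdPcd {N : Type} [Fintype N] (k : ℕ) (b : N → UnitAddCircle)
    (a : Fin (2 * k + 1) ≃ N) : UnitAddCircle →₀ ℝ :=
  (1 / 2 : ℝ) • rd b + (1 / 2 : ℝ) • pcd k b a

open Classical in
/-- Approximation ratio of RD+PCD on the profile `b`; it is `1` when all reports coincide. -/
noncomputable def apx {N : Type} [Fintype N] (k : ℕ) (b : N → UnitAddCircle)
    (a : Fin (2 * k + 1) ≃ N) : ℝ :=
  if ∃ v, ∀ i, b i = v then 1 else socialCost b (rdPcd k b a) / optCost b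

lemma socialCost_eq {N : Type} [Fintype N] (b : N → UnitAddCircle) (l : UnitAddCircle →₀ ℝ) :
    socialCost b l = Finsupp.linearCombination ℝ (fun x => ∑ i, dist (b i) x) l := by
  unfold socialCost
  rw [Finsupp.linearCombination_apply, Finsupp.sum]
  simp only [Finsupp.sum, smul_eq_mul, mul_sum]
  rw [sum_comm]

/-- Sanity check: every profile has a clockwise listing, so the main theorem is not vacuous. -/
lemma exists_isClockwise {N : Type} {n : ℕ} (e : Fin n ≃ N) (b : N → UnitAddCircle) :
    ∃ a : Fin n ≃ N, IsClockwise b a := by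
  set r : Fin n → ℝ := fun i => (AddCircle.equivIco 1 0 (b (e i)) : ℝ) with hr
  refine ⟨(Tuple.sort r).trans e, r ∘ Tuple.sort r, Tuple.monotone_sort r, ?_, ?_⟩
  · intro i j
    have h1 := (AddCircle.equivIco 1 0 (b (e (Tuple.sort r i)))).2.1
    have h2 := (AddCircle.equivIco 1 0 (b (e (Tuple.sort r j)))).2.2
    simp only [Function.comp, hr] at *
    linarith
  · intro j
    exact (AddCircle.equivIco 1 0).symm_apply_apply _

theorem result (k : ℕ) (_hk : 1 ≤ k) (N : Type) [Fintype N] (b : N → UnitAddCircle)
    (a : Fin (2 * k + 1) ≃ N) (ha : IsClockwise b a) : apx k b a < 3 / 2 := by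
  unfold apx
  split_ifs with hall
  · norm_num
  obtain ⟨x, hm, h1, hx⟩ := ha
  have hc : ∀ v : UnitAddCircle, ∑ i, dist (x i : UnitAddCircle) v = ∑ i, dist (b i) v := by
    intro v
    simp only [hx]
    exact Equiv.sum_comp a (fun i => dist (b i) v)
  have hpos : ∀ v : UnitAddCircle, 0 < ∑ i, dist (b i) v := by
    intro v
    apply lt_of_le_of_ne (sum_nonneg (fun _ _ => dist_nonneg))
    intro h
    have := (sum_eq_zero_iff_of_nonneg (fun _ _ => dist_nonneg)).mp h.symm
    exact hall ⟨v, fun i => dist_eq_zero.mp (this i (mem_univ i))⟩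
  obtain ⟨hsum, hmain⟩ := Pool.Agent.MP_9e0a8c_lc.main_fin k x hm h1
    (fun v => by rw [hc]; exact hpos v) (Fin.ofNat (2 * k + 1) k)
    (by rw [Fin.val_ofNat]; exact Nat.mod_eq_of_lt (by omega))
  have hcont : Continuous fun v : UnitAddCircle => ∑ i, dist (b i) v := by fun_prop
  obtain ⟨v, -, hv⟩ := isCompact_univ.exists_isMinOn Set.univ_nonempty hcont.continuousOn
  have hopt : optCost b = ∑ i, dist (b i) v := by
    unfold optCost
    apply le_antisymm
    · exact ciInf_le ⟨0, by rintro _ ⟨w, rfl⟩; exact (hpos w).le⟩ v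
    · exact le_ciInf (fun w => hv (Set.mem_univ w))
  have hcard : (Fintype.card N : ℝ) = 2 * k + 1 := by
    rw [← Fintype.card_congr a, Fintype.card_fin]
    push_cast; ring
  have harc : ∀ j, oppArc k b a j = (AddCircle.equivIco 1 0
      ((x (j - Fin.ofNat (2 * k + 1) k) : UnitAddCircle)
        - (x (j + Fin.ofNat (2 * k + 1) k) : UnitAddCircle)) : ℝ) := by
    intro j
    simp only [oppArc, arcLength, hx]
  have h2 := hmain v
  simp only [← harc] at h2 hsum
  simp only [hc] at h2
  simp only [hx] at h2
  rw [hopt, div_lt_iff₀ (hpos v), socialCost_eq]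
  unfold rdPcd rd pcd
  simp only [map_add, map_smul, map_sum, Finsupp.linearCombination_single, smul_eq_mul, hsum,
    div_one, hcard]
  rw [← Equiv.sum_comp a (fun i => 1 / (2 * (k : ℝ) + 1) * ∑ i', dist (b i') (b i))]
  simp only [add_mul, sum_add_distrib] at h2
  linarith

end Pool.Agent.Results.MP_9e0a8c_lc.RDPCD
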